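import Mathlib

/-!
Dependent random choice for set systems: `m` sets of density at least `c` contain a subfamily of
size at least `c ^ j * m - ε ^ j * m ^ 2` any two distinct members of which meet in more than an
`ε`-fraction of the ground set.
-/

set_option autoImplicit false

namespace Pool.Agent.H17R3.DRC

open Finset

theorem drc {V S : Type*} [Fintype V] [Fintype S] [DecidableEq V] [DecidableEq S]
    (A : V → Finset S) (c ε : ℝ) (hc : 0 ≤ c) (hε : 0 ≤ ε) (hS : 0 < Fintype.card S)
    (hA : ∀ v, c * (Fintype.card S : ℝ) ≤ ((A v).card : ℝ)) (j : ℕ) :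
    ∃ I : Finset V,
      c ^ j * (Fintype.card V : ℝ) - ε ^ j * (Fintype.card V : ℝ) ^ 2 ≤ (I.card : ℝ) ∧
      ∀ u ∈ I, ∀ v ∈ I, u ≠ v → ε * (Fintype.card S : ℝ) < (((A u ∩ A v).card : ℕ) : ℝ) := by
  classical
  set N : ℝ := (Fintype.card S : ℝ) with hN
  have hNpos : 0 < N := by rw [hN]; exact_mod_cast hS
  let U : (Fin j → S) → Finset V := fun s => univ.filter (fun v => ∀ i, s i ∈ A v)
  let bad : Finset (V × V) := univ.filter (fun p => p.1 ≠ p.2 ∧
    (((A p.1 ∩ A p.2).card : ℕ) : ℝ) ≤ ε * N)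
  let B : (Fin j → S) → Finset (V × V) := fun s =>
    bad.filter (fun p => (∀ i, s i ∈ A p.1) ∧ (∀ i, s i ∈ A p.2))
  have hcount : ∀ T : Finset S,
      (univ.filter (fun s : Fin j → S => ∀ i, s i ∈ T)).card = T.card ^ j := by
    intro T
    have : univ.filter (fun s : Fin j → S => ∀ i, s i ∈ T) = Fintype.piFinset (fun _ => T) := by
      ext s
      simp [Fintype.mem_piFinset]
    rw [this, Fintype.card_piFinset]
    simp
  have hU : ∑ s : Fin j → S, ((U s).card : ℝ) = ∑ v : V, ((A v).card : ℝ) ^ j := by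
    have h1 : ∀ s : Fin j → S, ((U s).card : ℝ) = ∑ v : V, if (∀ i, s i ∈ A v) then (1 : ℝ) else 0 := by
      intro s
      rw [Finset.sum_boole]
    simp_rw [h1]
    rw [Finset.sum_comm]
    refine Finset.sum_congr rfl fun v _ => ?_
    rw [Finset.sum_boole, hcount]
    push_cast
    rfl
  have hB : ∑ s : Fin j → S, ((B s).card : ℝ) = ∑ p ∈ bad, ((A p.1 ∩ A p.2).card : ℝ) ^ j := by
    have h1 : ∀ s : Fin j → S, ((B s).card : ℝ) =
        ∑ p ∈ bad, if ((∀ i, s i ∈ A p.1) ∧ (∀ i, s i ∈ A p.2)) then (1 : ℝ) else 0 := by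
      intro s
      rw [Finset.sum_boole]
    simp_rw [h1]
    rw [Finset.sum_comm]
    refine Finset.sum_congr rfl fun p _ => ?_
    rw [Finset.sum_boole]
    have h2 : (univ.filter (fun s : Fin j → S => (∀ i, s i ∈ A p.1) ∧ (∀ i, s i ∈ A p.2))) =
        univ.filter (fun s : Fin j → S => ∀ i, s i ∈ A p.1 ∩ A p.2) := by
      ext s
      simp only [mem_filter, mem_univ, true_and, mem_inter]
      constructor
      · rintro ⟨h1, h2⟩ i
        exact ⟨h1 i, h2 i⟩
      · intro h
        exact ⟨fun i => (h i).1, fun i => (h i).2⟩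
    rw [h2, hcount]
    push_cast
    rfl
  have hUge : (Fintype.card V : ℝ) * (c * N) ^ j ≤ ∑ s : Fin j → S, ((U s).card : ℝ) := by
    rw [hU]
    calc (Fintype.card V : ℝ) * (c * N) ^ j = ∑ _v : V, (c * N) ^ j := by
          rw [Finset.sum_const, Finset.card_univ, nsmul_eq_mul]
      _ ≤ _ := Finset.sum_le_sum fun v _ => pow_le_pow_left₀ (by positivity) (hA v) j
  have hBle : ∑ s : Fin j → S, ((B s).card : ℝ) ≤ (Fintype.card V : ℝ) ^ 2 * (ε * N) ^ j := by
    rw [hB]
    calc ∑ p ∈ bad, ((A p.1 ∩ A p.2).card : ℝ) ^ j ≤ ∑ _p ∈ bad, (ε * N) ^ j := by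
          refine Finset.sum_le_sum fun p hp => pow_le_pow_left₀ (by positivity) ?_ j
          exact (mem_filter.1 hp).2.2
      _ = (bad.card : ℝ) * (ε * N) ^ j := by rw [Finset.sum_const, nsmul_eq_mul]
      _ ≤ (Fintype.card V : ℝ) ^ 2 * (ε * N) ^ j := by
          refine mul_le_mul_of_nonneg_right ?_ (by positivity)
          have : bad.card ≤ Fintype.card (V × V) := Finset.card_le_univ _
          rw [Fintype.card_prod] at this
          have h3 : (bad.card : ℝ) ≤ ((Fintype.card V * Fintype.card V : ℕ) : ℝ) := by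
            exact_mod_cast this
          calc (bad.card : ℝ) ≤ _ := h3
            _ = (Fintype.card V : ℝ) ^ 2 := by push_cast; ring
  -- choose a good `s`
  have hex : ∃ s : Fin j → S,
      c ^ j * (Fintype.card V : ℝ) - ε ^ j * (Fintype.card V : ℝ) ^ 2 ≤
        ((U s).card : ℝ) - ((B s).card : ℝ) := by
    by_contra hcon
    push Not at hcon
    haveI : Nonempty S := Fintype.card_pos_iff.1 hS
    have hne : (univ : Finset (Fin j → S)).Nonempty := univ_nonempty
    have hlt : ∑ s : Fin j → S, (((U s).card : ℝ) - ((B s).card : ℝ)) <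
        ∑ _s : Fin j → S,
          (c ^ j * (Fintype.card V : ℝ) - ε ^ j * (Fintype.card V : ℝ) ^ 2) :=
      Finset.sum_lt_sum_of_nonempty hne fun s _ => hcon s
    rw [Finset.sum_sub_distrib, Finset.sum_const, Finset.card_univ, nsmul_eq_mul] at hlt
    have hcard : ((Fintype.card (Fin j → S) : ℕ) : ℝ) = N ^ j := by
      rw [Fintype.card_pi]
      simp [hN]
    rw [hcard] at hlt
    have e1 : N ^ j * (c ^ j * (Fintype.card V : ℝ) - ε ^ j * (Fintype.card V : ℝ) ^ 2) =
        (Fintype.card V : ℝ) * (c * N) ^ j - (Fintype.card V : ℝ) ^ 2 * (ε * N) ^ j := by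
      rw [mul_pow, mul_pow]
      ring
    rw [e1] at hlt
    linarith
  obtain ⟨s, hs⟩ := hex
  refine ⟨U s \ (B s).image Prod.fst, ?_, ?_⟩
  · have h1 : (U s).card ≤ (U s \ (B s).image Prod.fst).card + ((B s).image Prod.fst).card := by
      have := Finset.le_card_sdiff ((B s).image Prod.fst) (U s)
      omega
    have h2 : ((B s).image Prod.fst).card ≤ (B s).card := card_image_le
    have h3 : ((U s).card : ℝ) ≤ ((U s \ (B s).image Prod.fst).card : ℝ) + ((B s).card : ℝ) := by
      exact_mod_cast h1.trans (Nat.add_le_add_left h2 _)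
    linarith
  · intro u hu v hv huv
    by_contra hcon
    push Not at hcon
    rw [mem_sdiff] at hu hv
    apply hu.2
    rw [mem_image]
    refine ⟨(u, v), ?_, rfl⟩
    simp only [B, bad, mem_filter, mem_univ, true_and]
    refine ⟨⟨huv, hcon⟩, ?_, ?_⟩
    · have := hu.1
      simp only [U, mem_filter, mem_univ, true_and] at this
      exact this
    · have := hv.1
      simp only [U, mem_filter, mem_univ, true_and] at this
      exact this

end Pool.Agent.H17R3.DRC
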